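import Pool.Agent.H10.PC5

namespace Pool.Agent.Results.MP_1000ca_al.Yes

/-- `G` is a `p ^ n`-cover: every group of order `p ^ n` is isomorphic to a subgroup of `G`. -/
def IsCover (p n : ℕ) (G : Type) [Group G] : Prop :=
  ∀ (H : Type) [Group H], Nat.card H = p ^ n → ∃ K : Subgroup G, Nonempty (H ≃* K)

theorem result : ∃ F : ℕ → ℕ, ∀ p n : ℕ, p.Prime → 1 ≤ n →
    ∃ (G : Type) (_ : Group G) (_ : Finite G), IsCover p n G ∧ Nat.card G ≤ p ^ F n := by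
  choose F hF using Pool.Agent.H10.PC.cover
  refine ⟨F, fun p n hp _ => ?_⟩
  obtain ⟨U, _, _, h1, h2⟩ := hF n p hp
  refine ⟨U, inferInstance, inferInstance, fun H _ hH => ?_, h1⟩
  obtain ⟨φ, hφ⟩ := h2 H hH
  exact ⟨φ.range, ⟨MonoidHom.ofInjective hφ⟩⟩

end Pool.Agent.Results.MP_1000ca_al.Yes
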